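import Mathlib
import Pool.Agent.Run7.h643.MS.Prime

/-!
# The conjectural measure of algebraic independence for the logarithms of consecutive primes in bounded intervals

The conjecture says that `|P (l)| ≥ H ^ (- C)` for the nonzero polynomials `P` with integral coefficients, of degree at most
`d` and height at most `H`, where `C` depends on the linearly independent logarithms `l` and on `d`.

* **One window.** Let `c_1, …, c_k` be integers whose logarithms satisfy the lower bound at the height `H` with a constant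
  `C₀`. There is `C = C(k, r, d, C₀)` such that in every window `N + 1, …, N + h` with `(h + 2) ^ C ≤ N`, `N + h ≤ H`, there
  are at most `k + 2` exceptional numbers: the logarithms of any `r` others, together with the logarithms of the `c_i`,
  satisfy the lower bound at the height `H` with the constant `C`.
* **Consecutive primes.** For all `t, r, k` there are constants `C(d, C₀)` such that for all `m` and `Θ` there are a number
  `L` and an infinite set `M` such that the following holds for all `d` and `C₀`. Let `N_1, …, N_t ≥ (L + 2) ^ C(d, C₀)` be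
  in `M` (in any position to each other, also equal), let `T` be at least all `N_a + L`, and let `c_1, …, c_k ≤ T` be
  positive integers whose logarithms satisfy the lower bound with the constant `C₀` at all heights `H ≥ T` (no condition for
  `k = 0`). There are `r` consecutive primes in each of the intervals `(N_a, N_a + L]` such that the `t r` logarithms
  together with the `k` logarithms of the `c_i` satisfy the lower bound with the constant `C(d, C₀)` for all heights `H` in
  `[T, T ^ Θ]`. Moreover let `A_0, A_1, …` be any numbers `≥ T`; the primes may be chosen such that in addition there are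
  arbitrarily large `n` for which the lower bound with the constant `C(d, C₀)` holds for all the heights in all the
  intervals `[A_s, A_s ^ 2]`, `s < n`, with fewer than `n / m` exceptional `s`. For `A_s = T ^ (2 ^ s)` these intervals
  cover all the heights, so the lower bound holds, up to arbitrarily large bounds, for all the heights outside a set of
  relative double logarithmic measure `< 1 / m`.
-/

set_option autoImplicit false

namespace Pool.Agent.Results.MP_3cf473_nt.ConsecutivePrimes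

open Pool.Agent.Run7.h643.MS

/-- **The lower bound at the height `H`**: for all logarithms `l i` of the integers `n i`, of any branches, with
`|l i| ≤ H`, and all nonzero polynomials `P` with integral coefficients, of total degree at most `d` and height at most `H`,
`|P (l)| ≥ H ^ (- C)` -/
def Measure {σ : Type} (d C H : ℕ) (n : σ → ℕ) : Prop :=
  ∀ l : σ → ℂ, (∀ i, Complex.exp (l i) = n i) → (∀ i, ‖l i‖ ≤ H) → ∀ P : MvPolynomial σ ℤ, P ≠ 0 →
    P.totalDegree ≤ d → (∀ s, |P.coeff s| ≤ H) → 1 / (H : ℝ) ^ C ≤ ‖MvPolynomial.aeval l P‖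

/-- the primes number `n a, n a + 1, …, n a + (r - 1)` (starting from `0`), for `a < t` -/
noncomputable def primes {t : ℕ} (r : ℕ) (n : Fin t → ℕ) : Fin t × Fin r → ℕ :=
  fun x => Nat.nth Nat.Prime (n x.1 + x.2)

theorem not_bad {σ : Type} {d C H : ℕ} {n : σ → ℕ} (hH : 0 < H) (h : Measure d C H n) : ¬ BadT d C H n := by
  rintro ⟨l, h1, h2, P, h3, h4, h5, h6⟩
  have h7 := h l h1 h2 P h3 h4 h5
  have hHp : (0 : ℝ) < H := by exact_mod_cast hH
  have h8 : (H : ℝ) ^ C ≤ ((H : ℝ) + 2) ^ C := pow_le_pow_left₀ hHp.le (by linarith) C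
  have h9 : 1 ≤ ‖MvPolynomial.aeval l P‖ * (H : ℝ) ^ C := by
    rwa [div_le_iff₀ (by positivity)] at h7
  have h10 := mul_le_mul_of_nonneg_left h8 (norm_nonneg (MvPolynomial.aeval l P))
  linarith

theorem of_not_bad {σ : Type} {d C H M : ℕ} {n : σ → ℕ} (hH : 2 ≤ H) (hM : H ≤ M) (hM2 : M ≤ H ^ 2)
    (h : ¬ BadT d C M n) : Measure d (4 * C) H n := by
  intro l h1 h2 P h3 h4 h5
  by_contra hcon
  rw [not_le] at hcon
  apply h
  have hH2 : (2 : ℝ) ≤ H := by exact_mod_cast hH
  have hMr : (H : ℝ) ≤ M := by exact_mod_cast hM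
  have hM2r : (M : ℝ) ≤ (H : ℝ) ^ 2 := by exact_mod_cast hM2
  refine ⟨l, h1, fun i => (h2 i).trans hMr, P, h3, h4, fun s => (h5 s).trans (by exact_mod_cast hM), ?_⟩
  have h6 : (M : ℝ) + 2 ≤ (H : ℝ) ^ 4 := by nlinarith
  have h7 : ((M : ℝ) + 2) ^ C ≤ (H : ℝ) ^ (4 * C) := by
    rw [pow_mul]
    exact pow_le_pow_left₀ (by positivity) h6 C
  have h8 : ‖MvPolynomial.aeval l P‖ * (H : ℝ) ^ (4 * C) < 1 := by
    rwa [lt_div_iff₀ (by positivity)] at hcon
  exact (mul_le_mul_of_nonneg_left h7 (norm_nonneg _)).trans_lt h8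

/-- **Main theorem.** -/
theorem result :
    (∀ k r d C₀ : ℕ, ∃ C : ℕ, ∀ N h H : ℕ, 2 ≤ H → (h + 2) ^ C ≤ N → N + h ≤ H → ∀ c : Fin k → ℕ,
      (∀ i, 0 < c i ∧ c i ≤ H) → Measure d C₀ H c → ∃ S : Finset ℕ, S.card ≤ k + 2 ∧
        ∀ β : Fin r → ℕ, Function.Injective β → (∀ i, 0 < β i ∧ β i ≤ h ∧ β i ∉ S) →
          Measure d C H (Sum.elim (fun i => N + β i) c)) ∧
    (∀ t r k : ℕ, ∃ C : ℕ → ℕ → ℕ, ∀ m Θ : ℕ, ∃ (L : ℕ) (M : Set ℕ), M.Infinite ∧ ∀ (d C₀ : ℕ) (N : Fin t → ℕ),
      (∀ a, N a ∈ M ∧ (L + 2) ^ C d C₀ ≤ N a) → ∀ T : ℕ, 2 ≤ T → (∀ a, N a + L ≤ T) →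
      ∀ c : Fin k → ℕ, (∀ i, 0 < c i ∧ c i ≤ T) → (∀ H, T ≤ H → Measure d C₀ H c) → ∀ A : ℕ → ℕ, (∀ s, T ≤ A s) →
      ∃ n : Fin t → ℕ, (∀ x, N x.1 < primes r n x ∧ primes r n x ≤ N x.1 + L) ∧
        (∀ H, T ≤ H → H ≤ T ^ Θ → Measure d (C d C₀) H (Sum.elim (primes r n) c)) ∧
        ∀ n₀ : ℕ, ∃ n', n₀ ≤ n' ∧ ∃ D : Finset ℕ, m * D.card < n' ∧ ∀ s < n', s ∉ D →
          ∀ H, A s ≤ H → H ≤ A s ^ 2 → Measure d (C d C₀) H (Sum.elim (primes r n) c)) ∧
    ∀ (d H : ℕ) (c : Fin 0 → ℕ), Measure d 0 H c := by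
  classical
  refine ⟨fun k r d C₀ => ?_, fun t r k => ?_, fun d H c => ?_⟩
  · obtain ⟨C, hC⟩ := wstep (Fin k) r d C₀
    refine ⟨4 * C, fun N h H hH2 hN hH c hc hcm => ?_⟩
    obtain ⟨S, hS1, hS2⟩ := hC N h H ((Nat.pow_le_pow_right (by omega) (by omega)).trans hN) hH c hc
      (not_bad (by omega) hcm)
    refine ⟨S, by rwa [Fintype.card_fin] at hS1, fun β h1 h2 => of_not_bad hH2 le_rfl ?_ (hS2 β h1 h2)⟩
    nlinarith
  · obtain ⟨C, hC⟩ := runs_good t r k
    refine ⟨fun d C₀ => 4 * C d C₀, fun m Θ => ?_⟩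
    obtain ⟨L, M, hM, h⟩ := hC m (Θ + 1)
    refine ⟨L, M, hM, fun d C₀ N hN T hT2 hNT c hc hcm A hA => ?_⟩
    have hpow : ∀ s : ℕ, T ≤ T ^ 2 ^ s := fun s => Nat.le_self_pow (by positivity) T
    have hA2 : ∀ s, T ≤ A s ^ 2 := fun s => (hA s).trans (Nat.le_self_pow (by norm_num) _)
    obtain ⟨n, hk1, hk2, hk3⟩ := h d C₀ N
      (fun a => ⟨(hN a).1, (Nat.pow_le_pow_right (by omega) (show C d C₀ ≤ 4 * C d C₀ by omega)).trans (hN a).2⟩)
      (fun s => A s ^ 2) (fun s => T ^ 2 ^ (s + 1)) (fun s a => (hNT a).trans (hA2 s))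
      (fun s a => (hNT a).trans (hpow (s + 1))) c (fun i => (hc i).1)
      (fun s => ⟨fun i => (hc i).2.trans (hA2 s), not_bad (by have := hA2 s; omega) (hcm _ (hA2 s))⟩)
      (fun s => ⟨fun i => (hc i).2.trans (hpow (s + 1)), not_bad (by have := hpow (s + 1); omega) (hcm _ (hpow (s + 1)))⟩)
    refine ⟨n, fun x => hk1 x.1 x.2, fun H hTH hHT => ?_, fun n₀ => ?_⟩
    · have hex : ∃ j, H ≤ T ^ 2 ^ j := ⟨Θ, hHT.trans (Nat.pow_le_pow_right (by omega) Nat.lt_two_pow_self.le)⟩
      have hj1 := Nat.find_spec hex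
      have hj2 : Nat.find hex ≤ Θ := Nat.find_min' hex
        (hHT.trans (Nat.pow_le_pow_right (by omega) Nat.lt_two_pow_self.le))
      rcases Nat.eq_zero_or_pos (Nat.find hex) with h0 | hpos
      · rw [h0, pow_zero, pow_one] at hj1
        have h1 : H = T := le_antisymm hj1 hTH
        subst h1
        exact of_not_bad (M := H ^ 2 ^ (0 + 1)) hT2 (hpow 1) (by norm_num) (hk2 0 (by omega))
      · obtain ⟨i, hi⟩ : ∃ i, Nat.find hex = i + 1 := ⟨Nat.find hex - 1, by omega⟩
        have h2 := Nat.find_min hex (m := i) (by omega)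
        rw [not_le] at h2
        rw [hi] at hj1
        refine of_not_bad (M := T ^ 2 ^ (i + 1)) (by omega) hj1 ?_ (hk2 i (by omega))
        calc T ^ 2 ^ (i + 1) = (T ^ 2 ^ i) ^ 2 := by rw [← pow_mul, pow_succ]
          _ ≤ H ^ 2 := Nat.pow_le_pow_left h2.le 2
    · obtain ⟨n', hn, D, hD1, hD2⟩ := hk3 n₀
      refine ⟨n', hn, D, hD1, fun s hs hsD H hH1 hH2 => of_not_bad (M := A s ^ 2) ?_ hH2 ?_ (hD2 s hs hsD)⟩
      · have := hA s
        omega
      · exact Nat.pow_le_pow_left hH1 2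
  · intro l _ _ P h3 _ _
    rw [MvPolynomial.eq_C_of_isEmpty P] at h3 ⊢
    rw [MvPolynomial.aeval_C, pow_zero, div_one]
    have h7 : MvPolynomial.coeff 0 P ≠ 0 := fun h => h3 (by rw [h, map_zero])
    have h8 : (1 : ℝ) ≤ ‖((MvPolynomial.coeff 0 P : ℤ) : ℂ)‖ := by
      rw [Complex.norm_intCast]
      exact_mod_cast Int.one_le_abs h7
    exact h8

end Pool.Agent.Results.MP_3cf473_nt.ConsecutivePrimes
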