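import Mathlib
import Pool.Agent.Run7.h123.LC.LinH
import Pool.Agent.Run7.h123.LC.LinO

set_option autoImplicit false

/-!
# Measures of linear independence, and logarithms over the fields of numbers with simple expansions

Let `S` be an infinite set of integers and `K_b` the field generated by the real numbers with simple
expansions (`O(m)` different blocks of length `m`, `m ∈ S`) in bases dependent on `b`.

Theorem. If `n` real numbers have a measure of linear independence of the form `c H ^ (-κ)` (for example the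
monomials of degree at most `d` in real numbers for which the assertion of Q1 holds), then they are linearly
independent over `K_b` for all bases `b` independent of at most `n - 1` bases; over fields `K_G`, `K_H` with
`G ∩ H = 1` the dimensions of their spans have product at least `n`.

For logarithms: let `κ = 0` or `κ = 6`. For all bases `b` independent of at most two bases the following holds:
if `l, m` are linearly independent elements of `ℚ log 2 + ℚ iπ`, then `P(l, m) ≠ 0` for all nonzero polynomials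
of degree at most two with coefficients in `K_b` whose quadratic part, as a quadratic form in `log 2` and
`iπ`, has the coefficient at `(log 2) ^ 2` equal to `κ` times its coefficient at `(iπ) ^ 2`.

The proof uses the measures of linear independence of `1, log 2, π ^ 2` and of `1, log 2, Li₂(1/2)` of the
starting files, and for the theorem inequalities of Petridis-Plünnecke type and a matroid argument of Rado type
for linearly disjoint fields of hyperreal numbers (`Run7/h123/LC/LinP.lean`, `LinR.lean`, `LinL.lean`,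
`LinN.lean`).
-/

namespace Pool.Agent.Results.MP_3cf473_nt.LogarithmsOverSimpleFields

/-- the number of different blocks of length `m` in the sequence `w` -/
noncomputable def blocks {A : Type} (w : ℕ → A) (m : ℕ) : ℕ :=
  (Set.range fun i => fun j : Fin m => w (i + j)).ncard

/-- the digit with index `k + 1` after the point in the base `b` expansion of `x` -/
noncomputable def digit (b : ℕ) (x : ℝ) (k : ℕ) : ℤ := ⌊x * (b : ℝ) ^ (k + 1)⌋ % (b : ℤ)

/-- the sums of the series `∑ γ(w_0) ⋯ γ(w_{k-1}) c(w_k)`, where the `w_k` are in a finite set `A`,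
`γ(a)` and `c(a)` are rational, `|γ(a)| < 1`, `|γ(a)|` is in `G` and the sequence `w` has
at most `C m` different blocks of length `m`, for all `m ∈ S` -/
def Series (S : Set ℕ) (G : Subgroup ℚˣ) : Set ℝ :=
  {x | ∃ (A : Type) (_ : Finite A) (γ c : A → ℚ) (w : ℕ → A) (C : ℝ),
    (∀ a, ∃ u ∈ G, |γ a| = ((u : ℚˣ) : ℚ)) ∧ (∀ a, |γ a| < 1) ∧
    HasSum (fun n => (∏ k ∈ Finset.range n, (γ (w k) : ℝ)) * (c (w n) : ℝ)) x ∧
    ∀ m ∈ S, (blocks w m : ℝ) ≤ C * m}

/-- the field generated by `Series S G` -/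
noncomputable def K (S : Set ℕ) (G : Subgroup ℚˣ) : Subfield ℝ := Subfield.closure (Series S G)

/-- the group of the positive rational numbers `u` such that `u ^ m = b ^ k` for some integers
`m ≥ 1` and `k` -/
def group (b : ℕ) : Subgroup ℚˣ := Pool.Agent.Run7.h123.LC.rad b

lemma mem_group {b : ℕ} {u : ℚˣ} : u ∈ group b ↔ 0 < (u : ℚ) ∧
    ∃ (m : ℕ) (k : ℤ), 1 ≤ m ∧ (u : ℚ) ^ m = (b : ℚ) ^ k := Iff.rfl

/-- multiplicatively independent integers -/
def Independent {r : ℕ} (b : Fin r → ℕ) : Prop :=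
  ∀ k : Fin r → ℤ, ∏ i, (b i : ℚ) ^ k i = 1 → k = 0

/-- independent groups -/
def IndependentGroups {r : ℕ} (G : Fin r → Subgroup ℚˣ) : Prop :=
  ∀ g : Fin r → ℚˣ, (∀ i, g i ∈ G i) → ∏ i, g i = 1 → ∀ i, g i = 1

/-- for some `k < r` and multiplicatively independent `c_1, …, c_k ≥ 2`, `P b` is true for all `b ≥ 2`
such that `c_1, …, c_k, b` are multiplicatively independent -/
def AllBut (r : ℕ) (P : ℕ → Prop) : Prop :=
  ∃ (k : ℕ) (c : Fin k → ℕ), k < r ∧ (∀ i, 2 ≤ c i) ∧ Independent c ∧
    ∀ b : ℕ, 2 ≤ b → Independent (Fin.snoc c b : Fin (k + 1) → ℕ) → P b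

/-- a measure of linear independence: for some `κ` and `c > 0` every combination of the `x i` with integer
coefficients, not all zero, of absolute values at most `H` (`H ≥ 1`) has absolute value at least
`c / H ^ κ` -/
def Measure {n : ℕ} (x : Fin n → ℝ) : Prop :=
  ∃ (κ : ℕ) (c : ℝ), 0 < c ∧ ∀ p : Fin n → ℤ, p ≠ 0 → ∀ H : ℝ, 1 ≤ H → (∀ i, |(p i : ℝ)| ≤ H) →
    c / H ^ κ ≤ |∑ i, (p i : ℝ) * x i|

/-- the dimension of the `F`-vector space spanned by the `x i` -/
noncomputable def dim {n : ℕ} (x : Fin n → ℝ) (F : Subfield ℝ) : ℕ :=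
  Module.finrank F (Submodule.span F (Set.range x))

/-- the `n` numbers `x i` are linearly independent over `K S b` for all `b` independent of less than `n`
integers, and over one of the fields `K S (G i)` for `n` independent groups; over the fields of `r`
independent groups the product of the dimensions of their spans is at least `(n / r) ^ (r - 1)`, over those
of two groups with trivial intersection at least `n` -/
def Most {n : ℕ} (x : Fin n → ℝ) (S : Set ℕ) : Prop :=
  AllBut n (fun b => LinearIndependent (K S (group b)) x) ∧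
  (∀ G : Fin n → Subgroup ℚˣ, IndependentGroups G → ∃ i, LinearIndependent (K S (G i)) x) ∧
  (∀ r : ℕ, 2 ≤ r → ∀ G : Fin r → Subgroup ℚˣ, IndependentGroups G →
    n ^ (r - 1) ≤ r ^ (r - 1) * ∏ i, dim x (K S (G i))) ∧
  ∀ G H : Subgroup ℚˣ, G ⊓ H = ⊥ → n ≤ dim x (K S G) * dim x (K S H)

/-- the number `x log 2 + y iπ` -/
noncomputable def logar (x y : ℚ) : ℂ := x * (Real.log 2 : ℂ) + y * (Real.pi * Complex.I)

/-- no nonzero polynomial `P = a + b X + d Y + e X ^ 2 + f X Y + g Y ^ 2` with coefficients in `F`, whose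
quadratic part at `l, m`, as a quadratic form in `log 2` and `iπ`, has the coefficient at `(log 2) ^ 2` equal
to `κ` times its coefficient at `(iπ) ^ 2`, vanishes at `l, m`; here `l = x₁ log 2 + y₁ iπ` and
`m = x₂ log 2 + y₂ iπ` are arbitrary linearly independent elements of `ℚ log 2 + ℚ iπ` -/
def NoRelation (κ : ℕ) (F : Subfield ℝ) : Prop :=
  ∀ x₁ y₁ x₂ y₂ : ℚ, x₁ * y₂ - x₂ * y₁ ≠ 0 → ∀ a b d e f g : ℝ,
    a ∈ F → b ∈ F → d ∈ F → e ∈ F → f ∈ F → g ∈ F →
    e * x₁ ^ 2 + f * (x₁ * x₂) + g * x₂ ^ 2 = κ * (e * y₁ ^ 2 + f * (y₁ * y₂) + g * y₂ ^ 2) →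
    (a : ℂ) + b * logar x₁ y₁ + d * logar x₂ y₂ + e * logar x₁ y₁ ^ 2 +
      f * (logar x₁ y₁ * logar x₂ y₂) + g * logar x₂ y₂ ^ 2 = 0 →
    a = 0 ∧ b = 0 ∧ d = 0 ∧ e = 0 ∧ f = 0 ∧ g = 0

/-- `1, log 2, κ (log 2) ^ 2 - π ^ 2` -/
noncomputable def triple (κ : ℕ) : Fin 3 → ℝ :=
  ![1, Real.log 2, κ * Real.log 2 ^ 2 - Real.pi ^ 2]

section algebra

variable {F : Subfield ℝ}

lemma three {κ : ℕ} (h : LinearIndependent F (triple κ)) {a b c : ℝ} (ha : a ∈ F) (hb : b ∈ F)
    (hc : c ∈ F) (h0 : a + b * Real.log 2 + c * (κ * Real.log 2 ^ 2 - Real.pi ^ 2) = 0) :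
    a = 0 ∧ b = 0 ∧ c = 0 := by
  rw [Fintype.linearIndependent_iff] at h
  have h1 := h ![⟨a, ha⟩, ⟨b, hb⟩, ⟨c, hc⟩] (by
    rw [Fin.sum_univ_three]
    simp only [triple, Matrix.cons_val_zero, Matrix.cons_val_one, Matrix.cons_val]
    have e1 : ∀ (a : F) (x : ℝ), a • x = (a : ℝ) * x := fun a x => rfl
    rw [e1, e1, e1]
    linarith)
  have e0 := congrArg Subtype.val (h1 0)
  have e1 := congrArg Subtype.val (h1 1)
  have e2 := congrArg Subtype.val (h1 2)
  exact ⟨e0, e1, e2⟩

theorem noRelation {κ : ℕ} (h : LinearIndependent F (triple κ)) : NoRelation κ F := by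
  intro x₁ y₁ x₂ y₂ hdet a b d e f g ha hb hd he hf hg hE hP
  have hq : ∀ q : ℚ, (q : ℝ) ∈ F := fun q => SubfieldClass.ratCast_mem F q
  obtain ⟨L, hL⟩ : ∃ L : ℝ, L = Real.log 2 := ⟨_, rfl⟩
  obtain ⟨p, hp⟩ : ∃ p : ℝ, p = Real.pi := ⟨_, rfl⟩
  have hp0 : p ≠ 0 := by rw [hp]; exact Real.pi_ne_zero
  have hre := congrArg Complex.re hP
  have him := congrArg Complex.im hP
  have hre' : a + (b * x₁ + d * x₂) * L + (e * x₁ ^ 2 + f * (x₁ * x₂) + g * x₂ ^ 2) * L ^ 2 -
      (e * y₁ ^ 2 + f * (y₁ * y₂) + g * y₂ ^ 2) * p ^ 2 = 0 := by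
    have h0 : (0 : ℂ).re = 0 := rfl
    rw [h0] at hre
    rw [← hre]
    unfold logar
    simp only [Complex.add_re, Complex.mul_re, Complex.ofReal_re, Complex.ofReal_im, Complex.add_im,
      Complex.mul_im, Complex.I_re, Complex.I_im, Complex.ratCast_re, Complex.ratCast_im, pow_two,
      ← hL, ← hp]
    ring
  have him' : p * ((b * y₁ + d * y₂) + (2 * e * x₁ * y₁ + f * (x₁ * y₂ + x₂ * y₁) +
      2 * g * x₂ * y₂) * L) = 0 := by
    have h0 : (0 : ℂ).im = 0 := rfl
    rw [h0] at him
    rw [← him]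
    unfold logar
    simp only [Complex.add_re, Complex.mul_re, Complex.ofReal_re, Complex.ofReal_im, Complex.add_im,
      Complex.mul_im, Complex.I_re, Complex.I_im, Complex.ratCast_re, Complex.ratCast_im, pow_two,
      ← hL, ← hp]
    ring
  have him2 := (mul_eq_zero.1 him').resolve_left hp0
  obtain ⟨G, hG⟩ : ∃ G : ℝ, G = e * y₁ ^ 2 + f * (y₁ * y₂) + g * y₂ ^ 2 := ⟨_, rfl⟩
  have hGF : G ∈ F := by
    rw [hG]
    exact F.add_mem (F.add_mem (F.mul_mem he (F.pow_mem (hq _) 2))
      (F.mul_mem hf (F.mul_mem (hq _) (hq _)))) (F.mul_mem hg (F.pow_mem (hq _) 2))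
  rw [hE, ← hG] at hre'
  rw [← hG] at hE
  obtain ⟨k1, k2, k3⟩ := three h ha (F.add_mem (F.mul_mem hb (hq x₁)) (F.mul_mem hd (hq x₂))) hGF (by
    rw [← hL, ← hp]
    linear_combination hre')
  obtain ⟨k4, k5, -⟩ := three h (a := b * y₁ + d * y₂) (b := 2 * e * x₁ * y₁ +
    f * (x₁ * y₂ + x₂ * y₁) + 2 * g * x₂ * y₂) (c := 0)
    (F.add_mem (F.mul_mem hb (hq y₁)) (F.mul_mem hd (hq y₂)))
    (F.add_mem (F.add_mem (F.mul_mem (F.mul_mem (F.mul_mem (by
        have := hq 2
        push_cast at this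
        exact this) he) (hq _)) (hq _))
      (F.mul_mem hf (F.add_mem (F.mul_mem (hq _) (hq _)) (F.mul_mem (hq _) (hq _)))))
      (F.mul_mem (F.mul_mem (F.mul_mem (by
        have := hq 2
        push_cast at this
        exact this) hg) (hq _)) (hq _))) F.zero_mem (by
    rw [← hL]
    linear_combination him2)
  have hdet' : ((x₁ : ℝ) * y₂ - x₂ * y₁) ≠ 0 := by exact_mod_cast hdet
  rw [k3, mul_zero] at hE
  rw [k3] at hG
  have b0 : b = 0 := by
    have : ((x₁ : ℝ) * y₂ - x₂ * y₁) * b = 0 := by linear_combination y₂ * k2 - x₂ * k4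
    exact (mul_eq_zero.1 this).resolve_left hdet'
  have d0 : d = 0 := by
    have : ((x₁ : ℝ) * y₂ - x₂ * y₁) * d = 0 := by linear_combination x₁ * k4 - y₁ * k2
    exact (mul_eq_zero.1 this).resolve_left hdet'
  have hdet2 : ((x₁ : ℝ) * y₂ - x₂ * y₁) ^ 2 ≠ 0 := pow_ne_zero 2 hdet'
  have e0 : e = 0 := by
    have : ((x₁ : ℝ) * y₂ - x₂ * y₁) ^ 2 * e = 0 := by
      linear_combination y₂ ^ 2 * hE - x₂ * y₂ * k5 - x₂ ^ 2 * hG
    exact (mul_eq_zero.1 this).resolve_left hdet2
  have g0 : g = 0 := by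
    have : ((x₁ : ℝ) * y₂ - x₂ * y₁) ^ 2 * g = 0 := by
      linear_combination y₁ ^ 2 * hE - x₁ * y₁ * k5 - x₁ ^ 2 * hG
    exact (mul_eq_zero.1 this).resolve_left hdet2
  have f0 : f = 0 := by
    have : ((x₁ : ℝ) * y₂ - x₂ * y₁) ^ 2 * f = 0 := by
      linear_combination -2 * y₁ * y₂ * hE + (x₁ * y₂ + x₂ * y₁) * k5 + 2 * x₁ * x₂ * hG
    exact (mul_eq_zero.1 this).resolve_left hdet2
  exact ⟨k1, b0, d0, e0, f0, g0⟩

end algebra

theorem lm (κ : ℕ) (hκ : κ = 0 ∨ κ = 6) : Pool.Agent.Run7.h123.LC.LM (triple κ) := by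
  rcases hκ with rfl | rfl
  · have h := Pool.Agent.Run7.h123.LC.lm_log_pi
    refine h.map 1 le_rfl (fun p => ![p 0, p 1, -p 2]) ?_ ?_ 1 one_ne_zero ?_
    · intro p hp h0
      apply hp
      have a0 := congrFun h0 0
      have a1 := congrFun h0 1
      have a2 := congrFun h0 2
      simp only [Matrix.cons_val_zero, Matrix.cons_val_one, Matrix.cons_val, Pi.zero_apply] at a0 a1 a2
      funext i
      fin_cases i
      · exact a0
      · exact a1
      · change p 2 = 0
        omega
    · intro p H hb i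
      rw [Nat.cast_one, one_mul]
      fin_cases i
      · exact hb 0
      · exact hb 1
      · change |((-p 2 : ℤ) : ℝ)| ≤ H
        push_cast
        rw [abs_neg]
        exact hb 2
    · intro p
      unfold triple
      rw [Fin.sum_univ_three, Fin.sum_univ_three]
      simp only [Matrix.cons_val_zero, Matrix.cons_val_one, Matrix.cons_val]
      push_cast
      ring
  · exact_mod_cast Pool.Agent.Run7.h123.LC.lm_log_li

open Pool.Agent.Run7.h123.LC in
theorem allBut {P : ℕ → Prop} {r : ℕ} (hr : 1 ≤ r)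
    (h : ∀ c : Fin r → ℕ, (∀ i, 2 ≤ c i) → Independent c → ∃ i, P (c i)) : AllBut r P := by
  obtain ⟨n, rfl⟩ : ∃ n, r = n + 1 := ⟨r - 1, by omega⟩
  obtain ⟨k, c, hk, hc, hi, hb⟩ := outside_rank (fun b => ¬ P b) n (fun c hc hi hall => by
    obtain ⟨i, hi⟩ := h c hc hi
    exact hall i hi)
  exact ⟨k, c, by omega, hc, hi, fun b hb2 hbi => not_not.1 (hb b hb2 hbi)⟩

theorem lm_of {n : ℕ} {x : Fin n → ℝ} (h : Measure x) : Pool.Agent.Run7.h123.LC.LM x := by
  obtain ⟨κ, c, hc, h⟩ := h
  refine ⟨κ, c, hc, fun p hp H hH hb => ?_⟩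
  have h1 := h p hp H hH hb
  rwa [div_le_iff₀ (by positivity), mul_comm] at h1

theorem of_lm {n : ℕ} {x : Fin n → ℝ} (h : Pool.Agent.Run7.h123.LC.LM x) : Measure x := by
  obtain ⟨κ, c, hc, h⟩ := h
  refine ⟨κ, c, hc, fun p hp H hH hb => ?_⟩
  rw [div_le_iff₀ (by positivity), mul_comm]
  exact h p hp H hH hb

open Pool.Agent.Run7.h123.LC in
theorem most {n : ℕ} (hn : 1 ≤ n) {x : Fin n → ℝ} (h : Measure x) {S : Set ℕ} (hS : S.Infinite) :
    Most x S := by
  have key : ∀ G : Fin n → Subgroup ℚˣ, IndependentGroups G → ∃ i, LinearIndependent (K S (G i)) x :=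
    fun G hG => lm_indep (lm_of h) hn hS hG (F := fun i => K S (G i)) (fun i => le_rfl)
  refine ⟨allBut hn fun c hc hi => key (fun i => group (c i)) (gindep_rad hc hi), key,
    fun r hr G hG => ?_, fun G H hGH => ?_⟩
  · exact lm_many (lm_of h) hS hr hG (F := fun i => K S (G i)) (fun i => le_rfl)
      (W := fun i => Submodule.span (K S (G i)) (Set.range x))
      (fun i => FiniteDimensional.span_of_finite _ (Set.finite_range x))
      (fun i j => Submodule.subset_span ⟨j, rfl⟩)
  · exact lm_two (lm_of h) hS hGH (F₁ := K S G) (F₂ := K S H) le_rfl le_rfl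
      (FiniteDimensional.span_of_finite _ (Set.finite_range x))
      (FiniteDimensional.span_of_finite _ (Set.finite_range x))
      (fun i => Submodule.subset_span ⟨i, rfl⟩) (fun i => Submodule.subset_span ⟨i, rfl⟩)

/-- Let `S` be an infinite set of integers.

(1) Let `x_1, …, x_n` be real numbers with a measure of linear independence: for some `κ` and `c > 0` every
combination with integer coefficients, not all zero, of absolute values at most `H` is at least `c / H ^ κ`
in absolute value. There are less than `n` multiplicatively independent `c_i ≥ 2` such that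
`x_1, …, x_n` are linearly independent over `K S b` for all `b ≥ 2` multiplicatively independent of the `c_i`.
They are linearly independent over one of the fields `K S G_1, …, K S G_n` if these groups are independent.
If `G_1, …, G_r` are independent, then the dimensions `d_i` over `K S G_i` of the spaces spanned by
`x_1, …, x_n` satisfy `n ^ (r - 1) ≤ r ^ (r - 1) ∏ d_i`, and if `G ∩ H = 1`, then the product of the dimensions
over `K S G` and `K S H` is at least `n`.

(2) Let `κ = 0` or `κ = 6`. The numbers `1, log 2, κ (log 2) ^ 2 - π ^ 2` have such a measure. There are at most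
two multiplicatively independent `c_i ≥ 2` such that for all `b ≥ 2` multiplicatively independent of them
`P(l, m) ≠ 0` for all linearly independent elements `l, m` of `ℚ log 2 + ℚ iπ` and all nonzero polynomials `P`
of degree at most two with coefficients in `K S b`, whose quadratic part at `l, m`, as a quadratic form in
`log 2` and `iπ`, has the coefficient at `(log 2) ^ 2` equal to `κ` times its coefficient at `(iπ) ^ 2`. The
same is true over one of the fields `K S G_1, K S G_2, K S G_3` if the groups are independent.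

(3) The field `K S b` contains the rational numbers and all real numbers which have, in some base
`d ≥ 2` with `d ^ m = b ^ k`, `m ≥ 1`, at most `C m` different blocks of `m` digits, `m ∈ S`, for some
`C`. -/
theorem result :
    (∀ n : ℕ, 1 ≤ n → ∀ x : Fin n → ℝ, Measure x → ∀ S : Set ℕ, S.Infinite → Most x S) ∧
    (∀ κ : ℕ, κ = 0 ∨ κ = 6 → Measure (triple κ) ∧ ∀ S : Set ℕ, S.Infinite →
      AllBut 3 (fun b => NoRelation κ (K S (group b))) ∧
      ∀ G : Fin 3 → Subgroup ℚˣ, IndependentGroups G → ∃ i, NoRelation κ (K S (G i))) ∧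
    (∀ (S : Set ℕ) (b d m k : ℕ), 2 ≤ d → 1 ≤ m → d ^ m = b ^ k → ∀ x C : ℝ,
      (∀ m ∈ S, (blocks (digit d x) m : ℝ) ≤ C * m) → x ∈ K S (group b)) ∧
    (∀ (S : Set ℕ) (G : Subgroup ℚˣ) (x : ℚ), (x : ℝ) ∈ K S G) := by
  refine ⟨fun n hn x hx S hS => most hn hx hS, fun κ hκ => ⟨of_lm (lm κ hκ), fun S hS => ?_⟩,
    fun S b d m k hd hm h x C hC => ?_, fun S G x => SubfieldClass.ratCast_mem _ x⟩
  · have h1 := most (by norm_num) (of_lm (lm κ hκ)) hS
    have key : ∀ G : Fin 3 → Subgroup ℚˣ, IndependentGroups G → ∃ i, NoRelation κ (K S (G i)) := by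
      intro G hG
      obtain ⟨i, hi⟩ := h1.2.1 G hG
      exact ⟨i, noRelation hi⟩
    exact ⟨allBut (by norm_num) fun c hc hi => key (fun i => group (c i))
        (Pool.Agent.Run7.h123.LC.gindep_rad hc hi), key⟩
  · have hb0 : (d : ℚ) ≠ 0 := by
      have : d ≠ 0 := by omega
      exact_mod_cast this
    have hu : ∃ u ∈ group b, (u : ℚ) = d := by
      refine ⟨Units.mk0 (d : ℚ) hb0, mem_group.2 ⟨?_, m, (k : ℤ), hm, ?_⟩, rfl⟩
      · rw [Units.val_mk0]
        positivity
      · rw [Units.val_mk0, zpow_natCast]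
        exact_mod_cast h
    exact Pool.Agent.Run7.h123.LC.digits_mem hd hu hC

end Pool.Agent.Results.MP_3cf473_nt.LogarithmsOverSimpleFields
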