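import Pool.Agent.Run7.h469.TR.P3cf473
import Pool.Agent.Run7.h469.Vm

/-!
# Measures of algebraic independence for the logarithms of products of linear forms, in almost all integer vectors and in expansions of real vectors

Let `d` and `C` be natural numbers and `𝓗` a set of real numbers which is not bounded above. We call a `k`-tuple `t` of nonzero integers good if the
measure of algebraic independence `|P (l)| ≥ 1 / (|t| H ^ C)` holds for all `2 ≤ H ≤ exp (exp (|t| ^ (1 / C)))`, all logarithms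
`l_i` of the integers `|t_i|` with `|Im (l_i)| ≤ H` and all nonzero integer polynomials `P` of degree at most `d` and height at most
`H`, and if the measure `|P (l)| ≥ 1 / H ^ C` holds for arbitrarily large `H` in `𝓗` (for all these `l` and `P`).

For all `k, d` there is `C` with the following properties for all `𝓗` and all `h ≥ 1` (for `h = 1` there are no products, only
linear forms). For all integer vectors `x` in `[-X, X]^D` with at most `C' Q^(k h (D + 2)) X^(D - 1 / C)` exceptions, `C'` depending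
on `D`, ALL `k`-tuples `t` of products of `h` linear forms, `t_i = ∏_(j ≤ h) y_(i,j)` with `y = M x + b`, `M` an integral matrix of
rank `k h`, `b` an integral vector, the entries of `M` and `b` at most `Q`, all `y_(i,j) ≠ 0`, are good. Here `Q` can be a small
power of `X`. We prove a similar result for the integer vectors near `N_n α`, `N_n` a lacunary sequence (for instance the
truncations of the expansions in base `g`, `N_n = g^n`), for all real vectors `α` outside a set of dimension less than `D`, and `M`,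
`b` with entries up to a power of `N_n`; for almost all `α` this is true for ALL degrees `d` at the same time.

The starting theorem `AlmostAllTuples` of this problem gives at most `C U^(k - 1 / C)` tuples up to `U` which are not good. The
products of `h` integers form a set of density zero, and so the result for `h ≥ 2` does not follow from this number alone: the divisor
bound shows that few vectors `y` have a bad tuple of products, and for each of the possible `M`, `b` the map `x ↦ M x + b` has small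
fibres. The starting theorem `DirectionsNearAPoint` treats the tuples with given images in metric spaces near a point.
-/

set_option autoImplicit false

namespace Pool.Agent.Results.MP_3cf473_nt.ProductsOfLinearForms

open Finset MeasureTheory
open Run7.h469.Vk (Hits Lacunary Generic Avoids)
open Run7.h469.Vm (ProductIn)
open Run7.h469.TR.P3cf473 (Good few)

/-- The `k`-tuples of nonzero integers which are not good. -/
def Bad (d C : ℕ) (𝓗 : Set ℝ) (k : ℕ) : Set (Fin k → ℤ) := {t | (∀ i, t i ≠ 0) ∧ ¬ Good d C 𝓗 t}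

/-- **Measures of algebraic independence for the logarithms of products of linear forms.** Let `k ≥ 1`. For every `d` there is a
natural number `C d ≥ 1` and for all `h ≥ 1` there is `C'` such that for all sets `𝓗` of real numbers which are not bounded above: (1) for all `D` and
`X, Q ≥ 1`, for all but `C' ((D + 1)^(k h) 3^((k h + 1) (D + 1))) Q^(k h (D + 2)) X^(D - 1 / C)` of the integer vectors `x` in
`[-X, X]^D` no tuple of the products `∏_(j ≤ h) y_(i,j)` of nonzero coordinates of a vector `y = M x + b`, `M` integral of rank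
`k h`, with entries of `M` and `b` at most `Q`, is bad; (2) for lacunary `N_i` and `η ≥ 0`, outside a set of `α` in `ℝ^D` of
dimension at most `D - 1 / C + k h (D + 2) η`, for all `A`, for all large `i` the same is true for the integer vectors `x` with
`|x - N_i α| ≤ A` and `M`, `b` with entries at most `A N_i^η`; (3) in particular it is true for almost all `α`, if
`k h (D + 2) η < 1 / C`. (4) For almost all `α` it is true for all `d` and `h`, for bounded entries of `M` and `b` (`η = 0`). -/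
theorem result (k : ℕ) (hk : 1 ≤ k) : ∃ C : ℕ → ℕ, (∀ d, 1 ≤ C d) ∧
    (∀ d h : ℕ, 1 ≤ h → ∃ C' : ℝ, ∀ 𝓗 : Set ℝ, ¬ BddAbove 𝓗 →
      (∀ D X Q : ℕ, 1 ≤ X → 1 ≤ Q →
        (({x : Fin D → ℤ | (∀ j, |x j| ≤ X) ∧ x ∈ Hits (ProductIn h (Bad d (C d) 𝓗 k)) D Q}.ncard : ℕ) : ℝ) ≤
          C' * (((D : ℝ) + 1) ^ (k * h) * 3 ^ ((k * h + 1) * (D + 1))) * (Q : ℝ) ^ (k * h * (D + 2)) *
            (X : ℝ) ^ ((D : ℝ) - 1 / C d)) ∧
      (∀ D : ℕ, 1 ≤ D → ∀ N : ℕ → ℝ, Lacunary N → ∀ η : ℝ, 0 ≤ η →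
        Generic ((D : ℝ) - 1 / C d + k * h * (D + 2) * η)
          (fun α : Fin D → ℝ => Avoids (ProductIn h (Bad d (C d) 𝓗 k)) N η α)) ∧
      ∀ D : ℕ, 1 ≤ D → ∀ N : ℕ → ℝ, Lacunary N → ∀ η : ℝ, 0 ≤ η → k * h * (D + 2) * η < 1 / (C d : ℝ) →
        ∀ᵐ α : Fin D → ℝ, Avoids (ProductIn h (Bad d (C d) 𝓗 k)) N η α) ∧
    ∀ 𝓗 : Set ℝ, ¬ BddAbove 𝓗 → ∀ D : ℕ, 1 ≤ D → ∀ N : ℕ → ℝ, Lacunary N →
      ∀ᵐ α : Fin D → ℝ, ∀ d h : ℕ, 1 ≤ h → Avoids (ProductIn h (Bad d (C d) 𝓗 k)) N 0 α := by
  choose C₀ hC₀ K hK hf using fun d => few k d hk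
  have key : ∀ d h : ℕ, 1 ≤ h → ∃ C' : ℝ, ∀ 𝓗 : Set ℝ, ¬ BddAbove 𝓗 →
      (∀ D X Q : ℕ, 1 ≤ X → 1 ≤ Q →
        (({x : Fin D → ℤ | (∀ j, |x j| ≤ X) ∧ x ∈ Hits (ProductIn h (Bad d (C₀ d + 1) 𝓗 k)) D Q}.ncard : ℕ) : ℝ) ≤
          C' * (((D : ℝ) + 1) ^ (k * h) * 3 ^ ((k * h + 1) * (D + 1))) * (Q : ℝ) ^ (k * h * (D + 2)) *
            (X : ℝ) ^ ((D : ℝ) - 1 / (C₀ d + 1 : ℕ))) ∧
      (∀ D : ℕ, 1 ≤ D → ∀ N : ℕ → ℝ, Lacunary N → ∀ η : ℝ, 0 ≤ η →
        Generic ((D : ℝ) - 1 / (C₀ d + 1 : ℕ) + k * h * (D + 2) * η)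
          (fun α : Fin D → ℝ => Avoids (ProductIn h (Bad d (C₀ d + 1) 𝓗 k)) N η α)) ∧
      ∀ D : ℕ, 1 ≤ D → ∀ N : ℕ → ℝ, Lacunary N → ∀ η : ℝ, 0 ≤ η → k * h * (D + 2) * η < 1 / ((C₀ d + 1 : ℕ) : ℝ) →
        ∀ᵐ α : Fin D → ℝ, Avoids (ProductIn h (Bad d (C₀ d + 1) 𝓗 k)) N η α := by
    intro d h hh
    have hh1 : (1 : ℝ) ≤ h := by exact_mod_cast hh
    have hC1 : (1 : ℝ) ≤ C₀ d := by exact_mod_cast hC₀ d
    have hpos : 0 < 1 / (C₀ d : ℝ) := by positivity
    have hlt : 1 / ((C₀ d + 1 : ℕ) : ℝ) < 1 / (C₀ d : ℝ) := by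
      apply one_div_lt_one_div_of_lt (by linarith)
      push_cast
      linarith
    have hle : 1 / ((C₀ d + 1 : ℕ) : ℝ) ≤ 1 := by
      rw [div_le_one (by positivity)]
      push_cast
      linarith
    obtain ⟨C', -, key⟩ := Run7.h469.Vm.products_of_forms (k := k) (b := h) hk hh (hK d) (c := 1 / (C₀ d : ℝ))
      (c' := 1 / ((C₀ d + 1 : ℕ) : ℝ)) (by positivity) hle (by nlinarith)
    exact ⟨C', fun 𝓗 h𝓗 => key _ (hf d 𝓗 h𝓗)⟩
  refine ⟨fun d => C₀ d + 1, fun d => Nat.le_add_left 1 _, key, fun 𝓗 h𝓗 D hD N hN => ?_⟩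
  have h1 : ∀ᵐ α : Fin D → ℝ, ∀ q : ℕ × {h : ℕ // 1 ≤ h}, Avoids (ProductIn q.2.1 (Bad q.1 (C₀ q.1 + 1) 𝓗 k)) N 0 α := by
    rw [ae_all_iff]
    rintro ⟨d, h, hh⟩
    obtain ⟨C', hC'⟩ := key d h hh
    refine (hC' 𝓗 h𝓗).2.2 D hD N hN 0 le_rfl ?_
    rw [mul_zero]
    positivity
  filter_upwards [h1] with α hα d h hh
  exact hα (d, ⟨h, hh⟩)

end Pool.Agent.Results.MP_3cf473_nt.ProductsOfLinearForms
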