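import Pool.Agent.Run7.h430.TO.All
import Pool.Agent.Results.MP_3cf473_nt.AlmostAllTuples

/-!
# The conjectural measure of algebraic independence for the logarithms of ALL integers near tuples of totient orbits

Let `φ_j` be the `j`-th iterate of Euler's function, `φ_0(m) = m`. Let `F_1, …, F_k` be positive multiplicative functions of
the order `m ^ (1 + o(1))` such that `F_i p ≤ M p` for the large primes `p`, with different values at different large primes; for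
example the identity, Euler's function or the sum of the divisors. For all `k` and `d` there is a constant `C` such that for all
`κ < 1 / (2 C k)` there is `K(N)` tending to infinity with the following properties. We say that `t ∈ ℕ ^ k` is near the
orbits of `m ∈ [1, N] ^ k` if `|t_i - a_i F_i(φ_{j_i}(m_i))| ≤ N ^ κ` for some iterates `j_i ≤ K(N)` and multiples
`1 ≤ a_i ≤ K(N)`.

* For all but `o(N ^ k)` of the tuples `m ∈ [1, N] ^ k`, for ALL tuples `t` of positive integers near the orbits of `m`, the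
  lower bound `|P (l)| ≥ 1 / (N H ^ C)` holds for all heights `2 ≤ H ≤ exp (exp (N ^ (1 / C)))`, all logarithms `l_i` of the
  numbers `t_i` with `|Im (l_i)| ≤ H` and all nonzero polynomials `P` with integer coefficients, of degree at most `d` and
  height at most `H` (so `|P (l)| ≥ H ^ (- C - 1)` if moreover `H ≥ N`).
* For every single height `H ≥ N ^ 2`, for all but `o(N ^ k)` of the `m`, uniformly in `H`, the lower bound
  `|P (l)| ≥ H ^ (- C)` holds for ALL `t` near the orbits of `m`.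
* For every unbounded set of heights, for all but `o(N ^ k)` of the `m`, uniformly in the set, for ALL `t` near the orbits of
  `m` the lower bound `|P (l)| ≥ H ^ (- C)` holds for arbitrarily large heights `H` in the set.

The iterates of Euler's function are not multiplicative, and the tuples of their values form a thin set and are taken with
very large multiplicities; so this does not follow from the number of the exceptional tuples (`AlmostAllTuples`, starting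
files), which is used here. The tool is `Pool.Agent.N760.IT` (starting files, one orbit), transferred to tuples of orbits, with
multiples and windows, in `Run7/h430/TO`.
-/

set_option autoImplicit false

namespace Pool.Agent.Results.MP_3cf473_nt.TotientOrbits

open Filter Topology
open Pool.Agent.Results.MP_3cf473_nt.AlmostAllTuples (Small box)

/-- A positive multiplicative function of at most polynomial growth, at most `M p` at the large primes `p` and with different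
values at different large primes, and equal to `m ^ (1 + o(1))` for all `m`. -/
structure Moderate (f : ℕ → ℕ) : Prop where
  mul : ∀ m n : ℕ, Nat.Coprime m n → f (m * n) = f m * f n
  pos : ∀ m : ℕ, 1 ≤ m → 1 ≤ f m
  growth : ∃ C D : ℕ, ∀ m : ℕ, 1 ≤ m → f m ≤ C * m ^ D
  prime : ∃ P M : ℕ, ∀ p : ℕ, P ≤ p → p.Prime → f p ≤ M * p ∧ ∀ q : ℕ, P ≤ q → q.Prime → f q = f p → q = p
  order : ∀ ε : ℝ, 0 < ε → ∃ C : ℝ, 1 ≤ C ∧ ∀ m : ℕ, 1 ≤ m → (m : ℝ) ^ (1 - ε) ≤ C * f m ∧ (f m : ℝ) ≤ C * (m : ℝ) ^ (1 + ε)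

/-- the value of `f` at the `j`-th iterate of Euler's function -/
def orb (f : ℕ → ℕ) (j m : ℕ) : ℕ := f (Nat.totient^[j] m)

/-- the tuple `t` of positive integers is within `w` of a tuple of multiples `a i F i (φ_{j i} (m i))`, `j i, a i ≤ J` -/
def Near {k : ℕ} (F : Fin k → ℕ → ℕ) (J : ℕ) (w : ℝ) (m t : Fin k → ℕ) : Prop :=
  ∃ j a : Fin k → ℕ, (∀ i, j i ≤ J) ∧ (∀ i, 1 ≤ a i ∧ a i ≤ J) ∧
    ∀ i, 1 ≤ t i ∧ |(t i : ℝ) - a i * orb (F i) (j i) (m i)| ≤ w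

theorem lm_of {f : ℕ → ℕ} (hf : Moderate f) : Pool.Agent.N733.TG.LM f := ⟨hf.mul, hf.pos, hf.growth, hf.prime⟩

theorem of_lm {f : ℕ → ℕ} (hf : Pool.Agent.N733.TG.LM f) (hl : Run7.h430.TO.Lin f) : Moderate f :=
  ⟨hf.mul, hf.pos, hf.growth, hf.prime, hl⟩

theorem moderate_examples : Moderate (fun m => m) ∧ Moderate Nat.totient ∧ Moderate (fun m => ∑ d ∈ m.divisors, d) :=
  ⟨of_lm Pool.Agent.N760.IT.lm_id Run7.h430.TO.lin_id, of_lm Pool.Agent.N733.TG.lm_totient Run7.h430.TO.lin_totient,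
    of_lm Pool.Agent.N733.TG.lm_sigma Run7.h430.TO.lin_sigma⟩

/-- **Logarithms of integers near tuples of orbits of Euler's function.** `Small d H η t`: for some logarithms `l i` of the
`t i` with `|Im (l i)| ≤ H` and some nonzero integer polynomial `P` of degree at most `d` and height at most `H`,
`|P (l)| < η`. -/
theorem result :
    (∀ k d : ℕ, 1 ≤ k → ∃ C : ℕ, 0 < C ∧ ∀ F : Fin k → ℕ → ℕ, (∀ i, Moderate (F i)) → ∀ κ : ℝ, 0 ≤ κ →
      2 * C * k * κ < 1 → ∃ K : ℕ → ℕ, Tendsto K atTop atTop ∧ ∀ ε : ℝ, 0 < ε → ∃ N₀ : ℕ, ∀ N : ℕ, N₀ ≤ N →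
      ({m : Fin k → ℕ | (∀ i, 1 ≤ m i ∧ m i ≤ N) ∧ ∃ t, Near F (K N) ((N : ℝ) ^ κ) m t ∧ ∃ H : ℝ, 2 ≤ H ∧
          H ≤ Real.exp (Real.exp ((N : ℝ) ^ (1 / (C : ℝ)))) ∧
          Small d H (1 / (N * H ^ C)) t}.ncard : ℝ) ≤ ε * (N : ℝ) ^ k ∧
      (∀ H : ℝ, (N : ℝ) ^ 2 ≤ H →
        ({m : Fin k → ℕ | (∀ i, 1 ≤ m i ∧ m i ≤ N) ∧ ∃ t, Near F (K N) ((N : ℝ) ^ κ) m t ∧
          Small d H (1 / H ^ C) t}.ncard : ℝ) ≤ ε * (N : ℝ) ^ k) ∧
      (∀ 𝓗 : Set ℝ, ¬ BddAbove 𝓗 →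
        ({m : Fin k → ℕ | (∀ i, 1 ≤ m i ∧ m i ≤ N) ∧ ∃ t, Near F (K N) ((N : ℝ) ^ κ) m t ∧ ∃ H₀ : ℝ, ∀ H ∈ 𝓗, H₀ ≤ H →
          Small d H (1 / H ^ C) t}.ncard : ℝ) ≤ ε * (N : ℝ) ^ k)) ∧
    (Moderate (fun m => m) ∧ Moderate Nat.totient ∧ Moderate (fun m => ∑ d ∈ m.divisors, d)) := by
  classical
  refine ⟨fun k d hk => ?_, moderate_examples⟩
  obtain ⟨C, hC, h⟩ := AlmostAllTuples.result k d
  refine ⟨C, hC, fun F hF κ hκ hκC => ?_⟩
  have hC1 : (1 : ℝ) ≤ C := by exact_mod_cast hC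
  have hk1 : (1 : ℝ) ≤ k := by exact_mod_cast hk
  obtain ⟨c, hc⟩ : ∃ c : ℝ, c = 1 / (2 * C) := ⟨_, rfl⟩
  obtain ⟨ρ, hρ⟩ : ∃ ρ : ℝ, ρ = 1 / (2 * C * (k + 1)) := ⟨_, rfl⟩
  have hc0 : 0 < c := by rw [hc]; positivity
  have hρ0 : 0 < ρ := by rw [hρ]; positivity
  have hcC : 1 / (C : ℝ) = 2 * c := by rw [hc]; field_simp
  have hρk : ρ * (k + 1) = c := by rw [hρ, hc]; field_simp
  have hc1 : 2 * c ≤ 1 := by
    rw [← hcC]
    exact div_le_one_of_le₀ hC1 (by positivity)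
  have hρ1 : ρ ≤ 1 := by nlinarith
  have hkκ : k * κ < c := by
    rw [hc, lt_div_iff₀ (by positivity)]
    linarith
  have hκ1 : κ ≤ 1 := by nlinarith
  obtain ⟨K, hK, h'⟩ := Run7.h430.TO.win_set (fun i => lm_of (hF i)) (fun i => (hF i).order) hρ0 hκ hκ1 hkκ (2 * (C : ℝ))
  refine ⟨K, hK, fun ε hε => ?_⟩
  obtain ⟨N₁, hN₁⟩ := h' ε hε
  refine ⟨max N₁ 2, fun N hN => ?_⟩
  have hN2 : 2 ≤ N := (le_max_right _ _).trans hN
  have hN' : N₁ ≤ N := (le_max_left _ _).trans hN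
  have hN1 : (1 : ℝ) ≤ N := by
    have : (2 : ℝ) ≤ N := by exact_mod_cast hN2
    linarith
  obtain ⟨T, hT⟩ : ∃ T : ℕ, T = ⌊(N : ℝ) ^ (1 + ρ)⌋₊ := ⟨_, rfl⟩
  have hTle : (T : ℝ) ≤ (N : ℝ) ^ (1 + ρ) := by rw [hT]; exact Nat.floor_le (by positivity)
  have hNT : N ≤ T := by
    rw [hT]
    apply Nat.le_floor
    calc (N : ℝ) = (N : ℝ) ^ (1 : ℝ) := (Real.rpow_one _).symm
      _ ≤ (N : ℝ) ^ (1 + ρ) := Real.rpow_le_rpow_of_exponent_le hN1 (by linarith)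
  have hNT' : (N : ℝ) ≤ T := by exact_mod_cast hNT
  have hT1 : 1 ≤ T := by omega
  have hTN2 : (T : ℝ) ≤ (N : ℝ) ^ 2 := by
    refine hTle.trans ?_
    rw [← Real.rpow_natCast]
    exact Real.rpow_le_rpow_of_exponent_le hN1 (by push_cast; linarith)
  -- powers
  have p1 : (T : ℝ) ^ ((k : ℝ) - 1 / C) ≤ (N : ℝ) ^ ((k : ℝ) - c) := by
    rw [hcC]
    calc (T : ℝ) ^ ((k : ℝ) - 2 * c) ≤ ((N : ℝ) ^ (1 + ρ)) ^ ((k : ℝ) - 2 * c) :=
          Real.rpow_le_rpow (Nat.cast_nonneg _) hTle (by linarith)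
      _ = (N : ℝ) ^ ((1 + ρ) * ((k : ℝ) - 2 * c)) := by rw [← Real.rpow_mul (by linarith)]
      _ ≤ (N : ℝ) ^ ((k : ℝ) - c) := by
          apply Real.rpow_le_rpow_of_exponent_le hN1
          nlinarith
  have p2 : (1 / (N : ℝ)) ^ (1 / (C : ℝ)) * (T : ℝ) ^ k ≤ (N : ℝ) ^ ((k : ℝ) - c) := by
    have e1 : (1 / (N : ℝ)) ^ (1 / (C : ℝ)) = (N : ℝ) ^ (-(2 * c)) := by
      rw [hcC, one_div, Real.inv_rpow (by linarith), Real.rpow_neg (by linarith)]
    have e2 : (T : ℝ) ^ k ≤ (N : ℝ) ^ ((1 + ρ) * k) := by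
      calc (T : ℝ) ^ k ≤ ((N : ℝ) ^ (1 + ρ)) ^ k := pow_le_pow_left₀ (Nat.cast_nonneg _) hTle k
        _ = (N : ℝ) ^ ((1 + ρ) * k) := by rw [← Real.rpow_natCast, ← Real.rpow_mul (by linarith)]
    rw [e1]
    calc (N : ℝ) ^ (-(2 * c)) * (T : ℝ) ^ k ≤ (N : ℝ) ^ (-(2 * c)) * (N : ℝ) ^ ((1 + ρ) * k) :=
          mul_le_mul_of_nonneg_left e2 (by positivity)
      _ = (N : ℝ) ^ (-(2 * c) + (1 + ρ) * k) := by rw [← Real.rpow_add (by linarith)]
      _ ≤ (N : ℝ) ^ ((k : ℝ) - c) := by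
          apply Real.rpow_le_rpow_of_exponent_le hN1
          nlinarith
  obtain ⟨g1, g2, g3⟩ := h T hT1
  have hcard : ∀ W : Set (Fin k → ℕ), (((box k T).filter fun n => n ∈ W).card : ℝ) ≤ 2 * C * (N : ℝ) ^ ((k : ℝ) - c) →
      ({m : Fin k → ℕ | (∀ i, 1 ≤ m i ∧ m i ≤ N) ∧ ∃ t ∈ W, Near F (K N) ((N : ℝ) ^ κ) m t}.ncard : ℝ) ≤
        ε * (N : ℝ) ^ k := by
    intro W hW
    refine hN₁ N hN' W ?_
    rw [← hT]
    refine le_trans (le_of_eq ?_) hW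
    rw [← Set.ncard_coe_finset]
    congr 2
    ext t
    simp only [Set.mem_ofPred_eq, Finset.coe_filter, AlmostAllTuples.box, Fintype.mem_piFinset, Finset.mem_Icc]
  have hfin : ∀ P : (Fin k → ℕ) → Prop, {m : Fin k → ℕ | (∀ i, 1 ≤ m i ∧ m i ≤ N) ∧ P m}.Finite := by
    intro P
    apply (Fintype.piFinset fun _ : Fin k => Finset.Icc 1 N).finite_toSet.subset
    intro m hm
    rw [Finset.mem_coe, Fintype.mem_piFinset]
    exact fun i => Finset.mem_Icc.2 (hm.1 i)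
  refine ⟨?_, fun H hH => ?_, fun 𝓗 h𝓗 => ?_⟩
  · have q1 := g1 (1 / N) (by positivity) (div_le_one_of_le₀ hN1 (by positivity))
    have q2 : (C : ℝ) * ((1 / (N : ℝ)) ^ (1 / (C : ℝ)) * (T : ℝ) ^ k + (T : ℝ) ^ ((k : ℝ) - 1 / C)) ≤
        2 * C * (N : ℝ) ^ ((k : ℝ) - c) := by
      nlinarith
    have q3 := hcard {n : Fin k → ℕ | ∃ H : ℝ, 2 ≤ H ∧ H ≤ Real.exp (Real.exp ((T : ℝ) ^ (1 / (C : ℝ)))) ∧
      Small d H (1 / (N : ℝ) / H ^ C) n} (q1.trans q2)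
    refine le_trans ?_ q3
    refine Nat.cast_le.2 (Set.ncard_le_ncard ?_ (hfin _))
    rintro m ⟨hm, t, ht, H, hH1, hH2, hH3⟩
    refine ⟨hm, t, ⟨H, hH1, hH2.trans ?_, ?_⟩, ht⟩
    · apply Real.exp_le_exp.2
      apply Real.exp_le_exp.2
      exact Real.rpow_le_rpow (by linarith) hNT' (by positivity)
    · rw [div_div]
      exact hH3
  · have hH2 : (2 : ℝ) ≤ H := by
      have : (2 : ℝ) ≤ N := by exact_mod_cast hN2
      nlinarith
    have q1 := g2 H hH2 (hTN2.trans hH)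
    have q2 : (C : ℝ) * (T : ℝ) ^ ((k : ℝ) - 1 / C) ≤ 2 * C * (N : ℝ) ^ ((k : ℝ) - c) := by
      nlinarith
    have q3 := hcard {n : Fin k → ℕ | Small d H (1 / H ^ C) n} (q1.trans q2)
    refine le_trans (Nat.cast_le.2 (Set.ncard_le_ncard ?_ (hfin _))) q3
    rintro m ⟨hm, t, ht, hs⟩
    exact ⟨hm, t, hs, ht⟩
  · have q1 := g3 𝓗 h𝓗
    have q2 : (C : ℝ) * (T : ℝ) ^ ((k : ℝ) - 1 / C) ≤ 2 * C * (N : ℝ) ^ ((k : ℝ) - c) := by
      nlinarith
    have q3 := hcard {n : Fin k → ℕ | ∃ H₀ : ℝ, ∀ H ∈ 𝓗, H₀ ≤ H → Small d H (1 / H ^ C) n} (q1.trans q2)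
    refine le_trans (Nat.cast_le.2 (Set.ncard_le_ncard ?_ (hfin _))) q3
    rintro m ⟨hm, t, ht, hs⟩
    exact ⟨hm, t, hs, ht⟩

end Pool.Agent.Results.MP_3cf473_nt.TotientOrbits
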